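import Mathlib

namespace Pool.Agent.H.MP_baa7da_pr

open Finset Sum
open scoped ENNReal

def S (m : ℕ) : Prop := Nat.sqrt m < Nat.sqrt (m + 1)

instance : DecidablePred S := fun _ => inferInstanceAs (Decidable (_ < _))

abbrev V := List Bool ⊕ {l : List Bool // S l.length}

def om (m : ℕ) : ℕ := if S m then 2 else 1

def tau (m : ℕ) : ℕ := m + Nat.sqrt m

lemma tau_succ (m : ℕ) : tau (m + 1) = tau m + om m := by
  have h1 := Nat.sqrt_succ_le_succ_sqrt m
  have h2 := Nat.sqrt_le_sqrt (Nat.le_succ m)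
  simp only [Nat.succ_eq_add_one] at h1 h2
  unfold tau om S
  split_ifs <;> omega

lemma om_le (m : ℕ) : om m ≤ 2 := by unfold om; split_ifs <;> omega

lemma tau_mono {a b : ℕ} (h : a ≤ b) : tau a ≤ tau b :=
  add_le_add h (Nat.sqrt_le_sqrt h)

lemma tau_sum (n : ℕ) {a b : ℕ} (h : a ≤ b) :
    tau (n + b) = tau (n + a) + ∑ j ∈ Ico a b, om (n + j) := by
  induction b, h using Nat.le_induction with
  | base => simp
  | succ b h ih => rw [sum_Ico_succ_top h, ← add_assoc, tau_succ, ih, add_assoc]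

def base : V → List Bool
  | inl l => l
  | inr l => l.1

def F : List Bool → ℕ → Finset V
  | l, 0 => if h : S l.length then {inl l, inr ⟨l, h⟩} else {inl l}
  | l, j + 1 => F (false :: l) j ∪ F (true :: l) j

lemma F_mem : ∀ (j : ℕ) (l : List Bool) (x : V), x ∈ F l j → l <:+ base x
  | 0, l, x, h => by
    unfold F at h
    split_ifs at h
    · rcases mem_insert.mp h with rfl | h
      · exact List.suffix_refl _
      · rw [mem_singleton.mp h]; exact List.suffix_refl _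
    · rw [mem_singleton.mp h]; exact List.suffix_refl _
  | j + 1, l, x, h => by
    rcases mem_union.mp h with h | h <;> exact (List.suffix_cons _ _).trans (F_mem j _ x h)

lemma F_disj (l : List Bool) (j : ℕ) : Disjoint (F (false :: l) j) (F (true :: l) j) :=
  disjoint_left.mpr fun x h1 h2 => by
    have := (List.suffix_of_suffix_length_le (F_mem _ _ _ h1) (F_mem _ _ _ h2) (by simp)).eq_of_length
      (by simp)
    simp at this

lemma F_card : ∀ (j : ℕ) (l : List Bool), (F l j).card = 2 ^ j * om (l.length + j)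
  | 0, l => by
    unfold F om
    split_ifs with h1 h2 <;> simp_all
  | j + 1, l => by
    rw [F, card_union_of_disjoint (F_disj l j), F_card j, F_card j]
    simp only [List.length_cons]
    rw [show l.length + 1 + j = l.length + (j + 1) by ring]
    ring

def L (k : ℕ) : ℕ := 2 ^ (16 * k + 4)

def lam (n : ℕ) : ℕ := 4 * Nat.log 2 (n + 1)

def J (k n : ℕ) : ℕ := L k + lam n

lemma lam_succ (n : ℕ) : lam n ≤ lam (n + 1) ∧ lam (n + 1) ≤ lam n + 4 := by
  have h1 : Nat.log 2 (n + 1) ≤ Nat.log 2 (n + 1 + 1) := Nat.log_mono_right (by omega)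
  have h2 : Nat.log 2 (n + 1 + 1) ≤ Nat.log 2 ((n + 1) * 2) := Nat.log_mono_right (by omega)
  rw [Nat.log_mul_base (by norm_num) (by omega)] at h2
  unfold lam
  omega

lemma lam_ge (n : ℕ) : (n + 1) ^ 4 ≤ 16 * 2 ^ lam n := by
  have := Nat.pow_le_pow_left (Nat.lt_pow_succ_log_self (b := 2) (by norm_num) (n + 1)).le 4
  refine this.trans_eq ?_
  rw [lam, Nat.succ_eq_add_one]
  ring

def hh (k n : ℕ) : ℕ := tau (n + J k n) - tau (L k)

def ll (k n : ℕ) : ℕ := ∑ j ∈ Ico (J k n) (J k (n + 1) + 1), om (n + j)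

lemma J_le (k n : ℕ) : J k n ≤ J k (n + 1) + 1 := by
  have := lam_succ n
  unfold J; omega

lemma hh_succ (k n : ℕ) : hh k (n + 1) = hh k n + ll k n := by
  have h1 := tau_sum n (J_le k n)
  have h2 : tau (L k) ≤ tau (n + J k n) := tau_mono (by unfold J; omega)
  unfold hh ll
  rw [show n + 1 + J k (n + 1) = n + (J k (n + 1) + 1) by ring]
  omega

lemma sqrt_add (a b : ℕ) : Nat.sqrt (a + b) ≤ Nat.sqrt a + Nat.sqrt b + 1 := by
  have h1 := Nat.lt_succ_sqrt a
  have h2 := Nat.lt_succ_sqrt b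
  rw [← Nat.lt_succ_iff, Nat.sqrt_lt]
  simp only [Nat.succ_eq_add_one] at *
  nlinarith [Nat.zero_le (Nat.sqrt a * Nat.sqrt b), Nat.zero_le (Nat.sqrt a), Nat.zero_le (Nat.sqrt b)]

lemma sqrt_add' {a x : ℕ} (h : x * x ≤ a) : Nat.sqrt (a + x) ≤ Nat.sqrt a + 1 := by
  have h1 := Nat.lt_succ_sqrt a
  have h2 := Nat.le_sqrt.mpr h
  rw [← Nat.lt_succ_iff, Nat.sqrt_lt]
  simp only [Nat.succ_eq_add_one] at *
  nlinarith

noncomputable def d (k : ℕ) : ℝ := 3 / 4 * (1 / 4) ^ k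

lemma d_pos (k : ℕ) : 0 < d k := by unfold d; positivity

lemma d_sum : HasSum d 1 := by
  have := (hasSum_geometric_of_lt_one (r := (1 / 4 : ℝ)) (by norm_num) (by norm_num)).mul_left (3 / 4)
  rwa [show (3 / 4 : ℝ) * (1 - 1 / 4)⁻¹ = 1 by norm_num] at this

lemma key (a : ℕ) : 1024 * a ≤ 3 * 4 ^ a + 4096 := by
  induction a with
  | zero => norm_num
  | succ a ih =>
    rcases le_or_gt a 4 with h | h
    · interval_cases a <;> norm_num
    · have : 4 ^ 5 ≤ 4 ^ a := Nat.pow_le_pow_right (by norm_num) h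
      rw [pow_succ]
      omega

lemma hh_bound (n : ℕ) : ∃ H : ℝ, HasSum (fun k => d k * hh k n) H ∧ H ≤ 400 + tau n := by
  obtain ⟨x, hx⟩ : ∃ x, x = n + lam n := ⟨_, rfl⟩
  obtain ⟨m, hm⟩ : ∃ m, m = Nat.log 2 (n + 1) := ⟨_, rfl⟩
  have e : ∀ k, n + J k n = L k + x := fun k => by unfold J; omega
  have h1 : ∀ k, hh k n ≤ x + 1 + Nat.sqrt x := fun k => by
    have := sqrt_add (L k) x
    rw [hh, e]; unfold tau; omega
  have m1 : 2 ^ m ≤ n + 1 := hm ▸ Nat.pow_log_le_self 2 (by omega)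
  have m2 : n + 1 < 2 ^ (m + 1) := hm ▸ Nat.lt_pow_succ_log_self (by norm_num) _
  have m3 : m < 2 ^ m := Nat.lt_two_pow_self
  have hl : lam n = 4 * m := by rw [hm, lam]
  have h2 : hh (m / 8 + 1) n ≤ x + 1 := by
    have a1 : x ≤ 2 ^ (m + 3) := by rw [pow_succ] at m2; rw [pow_add]; omega
    have a2 : x * x ≤ L (m / 8 + 1) := (Nat.mul_le_mul a1 a1).trans <| by
      rw [← pow_add]
      exact Nat.pow_le_pow_right (by norm_num) (by omega)
    have := sqrt_add' a2
    rw [hh, e]; unfold tau; omega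
  have h3 : 16 ^ (m / 8) ≤ Nat.sqrt x + 1 := by
    have : 16 ^ (m / 8) * 16 ^ (m / 8) ≤ x + 1 := by
      rw [← pow_add, show 16 = 2 ^ 4 by rfl, ← pow_mul]
      exact (Nat.pow_le_pow_right (by norm_num) (by omega)).trans (m1.trans (by omega))
    exact (Nat.le_sqrt.mpr this).trans (Nat.sqrt_succ_le_succ_sqrt x)
  have h4 : Nat.sqrt x ≤ Nat.sqrt n + lam n + 1 := by
    have := sqrt_add n (lam n)
    have := Nat.sqrt_le_self (lam n)
    rw [hx]; omega
  obtain ⟨a, ha⟩ : ∃ a, a = m / 8 := ⟨_, rfl⟩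
  rw [← ha] at h3 h2
  clear e
  generalize hh = g at h1 h2 ⊢
  have hs := (d_sum.mul_right ((x + 1 + Nat.sqrt x : ℕ) : ℝ)).sub
    (hasSum_ite_eq (a + 1) (d (a + 1) * Nat.sqrt x))
  have hle : ∀ k, d k * g k n ≤ d k * ((x + 1 + Nat.sqrt x : ℕ) : ℝ) -
      if k = a + 1 then d (a + 1) * Nat.sqrt x else 0 := fun k => by
    split_ifs with hk
    · have : (g (a + 1) n : ℝ) ≤ x + 1 := by exact_mod_cast h2
      have := d_pos (a + 1)
      rw [hk]; push_cast; nlinarith
    · rw [sub_zero]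
      exact mul_le_mul_of_nonneg_left (by exact_mod_cast h1 k) (d_pos k).le
  have hS := Summable.of_nonneg_of_le (fun k => mul_nonneg (d_pos k).le (Nat.cast_nonneg _)) hle
    hs.summable
  refine ⟨_, hS.hasSum, (hasSum_le hle hS.hasSum hs).trans ?_⟩
  have k1 : (1024 : ℝ) * a ≤ 3 * 4 ^ a + 4096 := by exact_mod_cast key a
  have k2 : (16 : ℝ) ^ a ≤ Nat.sqrt x + 1 := by exact_mod_cast h3
  have k3 : (Nat.sqrt x : ℝ) ≤ Nat.sqrt n + lam n + 1 := by exact_mod_cast h4
  have k4 : (lam n : ℝ) ≤ 32 * a + 28 := by exact_mod_cast (by omega : lam n ≤ 32 * a + 28)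
  have k5 : d (a + 1) * 16 ^ a = 3 / 16 * 4 ^ a := by
    rw [d, pow_succ, show (16 : ℝ) = 4 * 4 by norm_num, mul_pow]
    field_simp
    rw [← mul_pow]; norm_num
  have k6 : d (a + 1) ≤ 1 := le_hasSum d_sum _ fun k _ => (d_pos k).le
  have k7 := mul_le_mul_of_nonneg_left k2 (d_pos (a + 1)).le
  rw [tau, hx]
  rw [hx] at k3 k7
  push_cast
  linarith

end Pool.Agent.H.MP_baa7da_pr
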