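import Pool.Agent.H.MP_baa7da_pr.A

namespace Pool.Agent.H.MP_baa7da_pr

open Finset Sum
open scoped ENNReal

noncomputable def t (k : ℕ) : ℝ := 4 * 2 ^ L k

lemma t_pos (k : ℕ) : 0 < t k := by unfold t; positivity

noncomputable def p (k : ℕ) : ℝ := d k / t k

noncomputable def f : ℕ → ℝ
  | 0 => 0
  | k + 1 => t k

lemma f_nn : ∀ i, 0 ≤ f i
  | 0 => le_rfl
  | k + 1 => (t_pos k).le

def Z (k : ℕ) (l : List Bool) (j : ℕ) (ω : V → ℕ) : ℕ := ((F l j).filter fun x => ω x = k + 1).card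

noncomputable def a (k : ℕ) (l : List Bool) (j : ℕ) (ω : V → ℕ) : ℝ≥0∞ :=
  ENNReal.ofReal (t k / 2 ^ j * Z k l j ω)

noncomputable def b (k : ℕ) (l : List Bool) (j : ℕ) (ω : V → ℕ) : ℝ≥0∞ :=
  ENNReal.ofReal (t k / 2 ^ j * |Z k l j ω - p k * (F l j).card|)

noncomputable def P (l : List Bool) (ω : V → ℕ) : ℝ≥0∞ := ∑' k, ∑ j ∈ range (J k l.length), a k l j ω

noncomputable def R (l : List Bool) (ω : V → ℕ) : ℝ≥0∞ :=
  ∑' k, ∑ j ∈ Ico (J k l.length) (J k (l.length + 1) + 1), a k l j ω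

noncomputable def e (l : List Bool) (ω : V → ℕ) : ℝ≥0∞ :=
  ∑' k, ∑ j ∈ Ico (J k l.length) (J k (l.length + 1) + 1), b k l j ω

noncomputable def U : List Bool → ℕ → (V → ℕ) → ℝ≥0∞
  | l, 0, ω => e l ω
  | l, j + 1, ω => 2⁻¹ * (U (false :: l) j ω + U (true :: l) j ω)

noncomputable def E (l : List Bool) (ω : V → ℕ) : ℝ≥0∞ := ∑' j, U l j ω

lemma a_succ (k : ℕ) (l : List Bool) (j : ℕ) (ω : V → ℕ) :
    a k (false :: l) j ω + a k (true :: l) j ω = 2 * a k l (j + 1) ω := by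
  have h : Z k l (j + 1) ω = Z k (false :: l) j ω + Z k (true :: l) j ω := by
    rw [Z, F, filter_union, card_union_of_disjoint (disjoint_filter_filter (F_disj l j))]
    rfl
  have := t_pos k
  rw [a, a, a, h, ← ENNReal.ofReal_add (by positivity) (by positivity),
    show (2 : ℝ≥0∞) = ENNReal.ofReal 2 by simp, ← ENNReal.ofReal_mul (by norm_num)]
  congr 1
  push_cast
  rw [pow_succ]
  field_simp

lemma P_rec (l : List Bool) (ω : V → ℕ) :
    2 * (∑' k, a k l 0 ω) + P (false :: l) ω + P (true :: l) ω = 2 * (P l ω + R l ω) := by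
  simp only [P, R, List.length_cons, ← ENNReal.tsum_add, ← ENNReal.tsum_mul_left]
  refine tsum_congr fun k => ?_
  rw [sum_range_add_sum_Ico _ (J_le k _), sum_range_succ', add_assoc, ← sum_add_distrib, mul_add,
    add_comm, mul_sum]
  simp only [a_succ]

lemma E_rec (l : List Bool) (ω : V → ℕ) :
    E l ω = e l ω + 2⁻¹ * (E (false :: l) ω + E (true :: l) ω) := by
  rw [E, tsum_eq_zero_add' ENNReal.summable]
  simp only [U, E, ← ENNReal.tsum_add, ← ENNReal.tsum_mul_left]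

lemma a_le (k : ℕ) (l : List Bool) (j : ℕ) (ω : V → ℕ) :
    a k l j ω ≤ ENNReal.ofReal (d k * om (l.length + j)) + b k l j ω := by
  have := t_pos k
  have := d_pos k
  rw [a, b, ← ENNReal.ofReal_add (by positivity) (by positivity)]
  refine ENNReal.ofReal_le_ofReal ?_
  have h : d k * om (l.length + j) = t k / 2 ^ j * (p k * (F l j).card) := by
    rw [F_card, p]; push_cast; field_simp
  rw [h, ← mul_add]
  exact mul_le_mul_of_nonneg_left (by linarith [le_abs_self (Z k l j ω - p k * (F l j).card)])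
    (by positivity)

lemma R_le (l : List Bool) (ω : V → ℕ) :
    R l ω ≤ (∑' k, ENNReal.ofReal (d k * ll k l.length)) + e l ω := by
  rw [R, e, ← ENNReal.tsum_add]
  refine ENNReal.tsum_le_tsum fun k => (sum_le_sum fun j _ => a_le k l j ω).trans_eq ?_
  rw [sum_add_distrib, ← ENNReal.ofReal_sum_of_nonneg fun j _ => mul_nonneg (d_pos k).le (by positivity),
    ← mul_sum, ll]
  push_cast
  rfl

lemma Y_ge (l : List Bool) (ω : V → ℕ) :
    ENNReal.ofReal (∑ x ∈ F l 0, f (ω x)) ≤ ∑' k, a k l 0 ω := by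
  have : ∀ k, a k l 0 ω = ∑ x ∈ F l 0, ENNReal.ofReal (if ω x = k + 1 then t k else 0) := fun k => by
    rw [← ENNReal.ofReal_sum_of_nonneg fun x _ => by split_ifs; exacts [(t_pos k).le, le_rfl], a, Z,
      card_filter]
    congr 1
    push_cast
    rw [mul_sum]
    simp
  simp only [this]
  rw [Summable.tsum_finsetSum fun _ _ => ENNReal.summable,
    ENNReal.ofReal_sum_of_nonneg fun x _ => f_nn _]
  refine sum_le_sum fun x _ => ?_
  rcases h : ω x with _ | k
  · simp [f]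
  · refine le_trans ?_ (ENNReal.le_tsum k)
    simp [f]

lemma det (ω : V → ℕ) (hP : P [] ω ≠ ∞) (hE : E [] ω ≠ ∞) : ∃ B : List Bool → ℝ, (∀ l, 0 ≤ B l) ∧
    ∀ l, ∑ x ∈ F l 0, (f (ω x) - 1) + (B (false :: l) + B (true :: l)) / 2 ≤ B l := by
  choose H hH hb using hh_bound
  have hl : ∀ n, HasSum (fun k => d k * ll k n) (H (n + 1) - H n) := fun n => by
    have := (hH (n + 1)).sub (hH n)
    simp only [hh_succ, Nat.cast_add, mul_add, add_sub_cancel_left] at this
    exact this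
  have hl0 : ∀ n k, 0 ≤ d k * ll k n := fun n k => mul_nonneg (d_pos k).le (by positivity)
  have hR : ∀ l, R l ω ≤ ENNReal.ofReal (H (l.length + 1) - H l.length) + e l ω := fun l => by
    rw [← (hl _).tsum_eq, ENNReal.ofReal_tsum_of_nonneg (hl0 _) (hl _).summable]
    exact R_le l ω
  have hE' : ∀ l, E l ω ≠ ∞ → e l ω ≠ ∞ ∧ E (false :: l) ω ≠ ∞ ∧ E (true :: l) ω ≠ ∞ := fun l h => by
    rw [E_rec] at h
    simpa [ENNReal.mul_eq_top, not_or] using h
  have hEl : ∀ l, E l ω ≠ ∞ := fun l => by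
    induction l with
    | nil => exact hE
    | cons c l ih => cases c; exacts [(hE' l ih).2.1, (hE' l ih).2.2]
  have hRl : ∀ l, R l ω ≠ ∞ := fun l =>
    ne_top_of_le_ne_top (ENNReal.add_ne_top.mpr ⟨ENNReal.ofReal_ne_top, (hE' l (hEl l)).1⟩) (hR l)
  have hP' : ∀ l, P l ω ≠ ∞ →
      (∑' k, a k l 0 ω) ≠ ∞ ∧ P (false :: l) ω ≠ ∞ ∧ P (true :: l) ω ≠ ∞ := fun l h => by
    have : 2 * (P l ω + R l ω) ≠ ∞ := ENNReal.mul_ne_top (by simp) (ENNReal.add_ne_top.mpr ⟨h, hRl l⟩)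
    rw [← P_rec] at this
    simpa [ENNReal.mul_eq_top, not_or, and_assoc] using this
  have hPl : ∀ l, P l ω ≠ ∞ := fun l => by
    induction l with
    | nil => exact hP
    | cons c l ih => cases c; exacts [(hP' l ih).2.1, (hP' l ih).2.2]
  refine ⟨fun l => (P l ω).toReal + (E l ω).toReal + (400 + tau l.length - H l.length),
    fun l => add_nonneg (by positivity) (sub_nonneg.mpr (hb _)), fun l => ?_⟩
  obtain ⟨h1, h2, h3⟩ := hP' l (hPl l)
  obtain ⟨h4, h5, h6⟩ := hE' l (hEl l)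
  have e1 := congrArg ENNReal.toReal (P_rec l ω)
  have e2 := congrArg ENNReal.toReal (E_rec l ω)
  have e3 := ENNReal.toReal_mono (ENNReal.add_ne_top.mpr ⟨ENNReal.ofReal_ne_top, h4⟩) (hR l)
  have e4 := ENNReal.toReal_mono h1 (Y_ge l ω)
  have h7 : 2 * (∑' k, a k l 0 ω) ≠ ∞ := ENNReal.mul_ne_top (by simp) h1
  rw [ENNReal.toReal_add (ENNReal.add_ne_top.mpr ⟨h7, h2⟩) h3, ENNReal.toReal_add h7 h2,
    ENNReal.toReal_mul, ENNReal.toReal_mul, ENNReal.toReal_add (hPl l) (hRl l)] at e1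
  rw [ENNReal.toReal_add h4 (ENNReal.mul_ne_top (by simp) (ENNReal.add_ne_top.mpr ⟨h5, h6⟩)),
    ENNReal.toReal_mul, ENNReal.toReal_add h5 h6] at e2
  rw [ENNReal.toReal_add ENNReal.ofReal_ne_top h4,
    ENNReal.toReal_ofReal ((hl _).nonneg (hl0 _))] at e3
  rw [ENNReal.toReal_ofReal (sum_nonneg fun x _ => f_nn _)] at e4
  simp only [List.length_cons, tau_succ, sum_sub_distrib, sum_const, F_card]
  norm_num at e1 e2 ⊢
  linarith

end Pool.Agent.H.MP_baa7da_pr
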