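import Pool.Agent.H.MP_baa7da_pr.B

namespace Pool.Agent.H.MP_baa7da_pr

open Finset Sum MeasureTheory ProbabilityTheory
open scoped ENNReal

lemma p_pos (k : ℕ) : 0 < p k := div_pos (d_pos k) (t_pos k)

lemma d_top : ∑' k, ENNReal.ofReal (d k) = 1 := by
  rw [← ENNReal.ofReal_tsum_of_nonneg (fun k => (d_pos k).le) d_sum.summable, d_sum.tsum_eq]
  simp

noncomputable def w : ℕ → ℝ≥0∞
  | 0 => 1 - ∑' k, ENNReal.ofReal (p k)
  | k + 1 => ENNReal.ofReal (p k)

lemma w_sum : HasSum w 1 := by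
  rw [ENNReal.summable.hasSum_iff, tsum_eq_zero_add' ENNReal.summable]
  refine tsub_add_cancel_of_le (le_trans (ENNReal.tsum_le_tsum fun k => ?_) d_top.le)
  refine ENNReal.ofReal_le_ofReal (div_le_self (d_pos k).le ?_)
  have : (1 : ℝ) ≤ 2 ^ L k := one_le_pow₀ (by norm_num)
  unfold t; linarith

noncomputable def μ : Measure ℕ := PMF.toMeasure ⟨w, w_sum⟩

instance : IsProbabilityMeasure μ := PMF.toMeasure.isProbabilityMeasure _

lemma μ_one (n : ℕ) : μ {n} = w n := PMF.toMeasure_apply_singleton _ _ (measurableSet_singleton n)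

lemma lint_f (g : ℝ → ℝ) (hg : g 0 = 0) : ∫⁻ i, ENNReal.ofReal (g (f i)) ∂μ =
    ∑' k, ENNReal.ofReal (p k * g (t k)) := by
  rw [lintegral_countable', tsum_eq_zero_add' ENNReal.summable]
  simp only [μ_one, f, w, hg, ENNReal.ofReal_zero, zero_mul, zero_add]
  exact tsum_congr fun k => by rw [mul_comm, ENNReal.ofReal_mul (p_pos k).le]

lemma pt (k : ℕ) : p k * t k = d k := div_mul_cancel₀ _ (t_pos k).ne'

lemma f_one : ∫⁻ i, ENNReal.ofReal (f i) ∂μ = 1 := by
  simpa only [pt, d_top] using lint_f (fun x => x) rfl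

lemma f_sq : ∫⁻ i, ENNReal.ofReal (f i ^ 2) ∂μ = ∞ := by
  rw [lint_f (fun x => x ^ 2) (by simp), eq_top_iff,
    ← ENNReal.tsum_const_eq_top_of_ne_zero (α := ℕ) (c := 1) one_ne_zero]
  refine ENNReal.tsum_le_tsum fun k => ?_
  rw [sq, ← mul_assoc, pt, ENNReal.one_le_ofReal, d, t]
  have h1 : 2 * k ≤ L k := le_trans (by omega) (Nat.lt_two_pow_self (n := 16 * k + 4)).le
  have h2 : (2 : ℝ) ^ (2 * k) ≤ 2 ^ L k := pow_le_pow_right₀ (by norm_num) h1
  have h3 : (1 / 4 : ℝ) ^ k * 2 ^ (2 * k) = 1 := by rw [pow_mul, ← mul_pow]; norm_num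
  have h4 : (0 : ℝ) < (1 / 4) ^ k := by positivity
  generalize (2 : ℝ) ^ L k = y at *
  nlinarith

noncomputable abbrev Pr : Measure (V → ℕ) := Measure.infinitePi fun _ : V => μ

lemma moments (k : ℕ) (A : Finset V) :
    let Y : (V → ℕ) → ℝ := fun ω => ((A.filter fun x => ω x = k + 1).card : ℝ)
    Measurable Y ∧ MemLp Y 2 Pr ∧ Pr[Y] = p k * A.card ∧ variance Y Pr ≤ p k * A.card := by
  intro Y
  let g : ℕ → ℝ := ({k + 1} : Set ℕ).indicator 1
  have hg : Measurable g := measurable_from_top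
  have hb : ∀ i, g i ∈ Set.Icc (0 : ℝ) 1 := fun i => by
    by_cases h : i = k + 1 <;> simp [g, h]
  let X : V → (V → ℕ) → ℝ := fun x ω => g (ω x)
  have hX : ∀ x, Measurable (X x) := fun x => hg.comp (measurable_pi_apply x)
  have hm : ∀ x, MemLp (X x) 2 Pr := fun x =>
    memLp_of_bounded (ae_of_all _ fun u => hb _) (hX x).aestronglyMeasurable 2
  have hi : iIndepFun X Pr := iIndepFun_infinitePi (X := fun _ => g) fun _ => hg
  have hE : ∀ x, Pr[X x] = p k := fun x => by
    have : μ.real {k + 1} = p k := by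
      rw [Measure.real, μ_one, w, ENNReal.toReal_ofReal (p_pos k).le]
    rw [← this, ← integral_indicator_one (measurableSet_singleton _),
      ← Measure.infinitePi_map_eval (fun _ : V => μ) x,
      integral_map (measurable_pi_apply x).aemeasurable hg.aestronglyMeasurable]
  have hY : Y = ∑ x ∈ A, X x := by
    ext ω
    simp only [Y, X, g, card_filter, Finset.sum_apply, Set.indicator_apply, Set.mem_singleton_iff]
    push_cast
    rfl
  rw [hY]
  refine ⟨by fun_prop, memLp_finsetSum' _ fun x _ => hm x, ?_, ?_⟩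
  · simp only [Finset.sum_apply]
    rw [integral_finsetSum _ fun x _ => (hm x).integrable (by norm_num)]
    simp [hE, mul_comm]
  · rw [IndepFun.variance_sum (fun x _ => hm x) fun i _ j _ hij => hi.indepFun hij]
    refine (sum_le_sum (g := fun _ => p k) fun x _ => ?_).trans_eq (by simp [mul_comm])
    refine (variance_le_expectation_sq (hX x).aestronglyMeasurable).trans_eq ?_
    rw [← hE x]
    congr 1
    ext ω
    by_cases h : ω x = k + 1 <;> simp [X, g, h]

lemma abs_dev {Y : (V → ℕ) → ℝ} (hm : MemLp Y 2 Pr) {α : ℝ} (hα : 0 < α) (hv : variance Y Pr ≤ α ^ 2) :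
    ∫ ω, |Y ω - Pr[Y]| ∂Pr ≤ α := by
  have h1 : MemLp (fun ω => Y ω - Pr[Y]) 2 Pr := hm.sub (memLp_const _)
  have h2 := h1.integrable_sq
  rw [variance_eq_integral hm.aemeasurable] at hv
  calc _ ≤ ∫ ω, ((Y ω - Pr[Y]) ^ 2 / (2 * α) + α / 2) ∂Pr := by
        refine integral_mono (h1.integrable (by norm_num)).abs ((h2.div_const _).add (integrable_const _))
          fun ω => ?_
        have := sq_nonneg (|Y ω - Pr[Y]| - α)
        have e := sq_abs (Y ω - Pr[Y])
        simp only
        rw [div_add' _ _ _ (by positivity), le_div_iff₀ (by positivity)]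
        nlinarith
    _ ≤ α := by
        rw [integral_add (h2.div_const _) (integrable_const _), integral_div]
        simp only [integral_const, probReal_univ, one_smul]
        rw [div_add' _ _ _ (by positivity), div_le_iff₀ (by positivity)]
        nlinarith

lemma num (k n j : ℕ) (hj : J k n ≤ j) (c : ℝ) (hc : c ≤ 2) (h0 : 0 ≤ c) :
    p k * (2 ^ j * c) ≤ (10 * (1 / 2) ^ k / (n + 1) ^ 2 / (t k / 2 ^ j)) ^ 2 := by
  have h1 : ((n : ℝ) + 1) ^ 4 ≤ 16 * 2 ^ lam n := by exact_mod_cast lam_ge n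
  have h2 : (2 : ℝ) ^ L k * 2 ^ lam n ≤ 2 ^ j := by
    rw [← pow_add]; exact pow_le_pow_right₀ (by norm_num) hj
  have h3 : ((1 / 2 : ℝ) ^ k) ^ 2 = (1 / 4) ^ k := by rw [← pow_mul, mul_comm, pow_mul]; norm_num
  have h4 : (0 : ℝ) < 2 ^ L k := by positivity
  have h5 : (0 : ℝ) < 2 ^ j := by positivity
  have h6 : (0 : ℝ) < (1 / 4) ^ k := by positivity
  have h7 : (0 : ℝ) < (n + 1) ^ 4 := by positivity
  rw [div_pow, div_pow, mul_pow, h3, ← pow_mul, p, d, t]
  generalize (2 : ℝ) ^ L k = x at *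
  generalize (2 : ℝ) ^ j = y at *
  generalize (2 : ℝ) ^ lam n = z at *
  generalize (1 / 4 : ℝ) ^ k = q at *
  generalize ((n : ℝ) + 1) ^ 4 = m at *
  have h8 : x * m * c ≤ 16 * y * 2 :=
    mul_le_mul (by nlinarith) hc h0 (by positivity)
  rw [le_div_iff₀ (by positivity), le_div_iff₀ h7]
  have : 3 / 4 * q / (4 * x) * (y * c) * (4 * x / y) ^ 2 * m = 3 * q / y * (x * m * c) := by
    field_simp
  rw [this, div_mul_eq_mul_div, div_le_iff₀ h5]
  nlinarith

lemma b_meas (k : ℕ) (l : List Bool) (j : ℕ) : Measurable (b k l j) :=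
  (((moments k (F l j)).1.sub_const _).abs.const_mul _).ennreal_ofReal

lemma b_int (k : ℕ) (l : List Bool) (j : ℕ) (hj : J k l.length ≤ j) :
    ∫⁻ ω, b k l j ω ∂Pr ≤ ENNReal.ofReal (10 * (1 / 2) ^ k / (l.length + 1) ^ 2) := by
  obtain ⟨-, h2, h3, h4⟩ := moments k (F l j)
  have hc : 0 < t k / 2 ^ j := div_pos (t_pos k) (by positivity)
  have h5 := abs_dev h2 (α := 10 * (1 / 2) ^ k / (l.length + 1) ^ 2 / (t k / 2 ^ j)) (by positivity)
    (h4.trans <| by
      rw [F_card]; push_cast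
      exact num k _ j hj _ (by exact_mod_cast om_le _) (by positivity))
  rw [h3, le_div_iff₀ hc, mul_comm, ← integral_const_mul] at h5
  refine le_trans (le_of_eq ?_) (ENNReal.ofReal_le_ofReal h5)
  exact (ofReal_integral_eq_lintegral_ofReal
    (((h2.integrable (by norm_num)).sub (integrable_const _)).abs.const_mul _)
    (ae_of_all _ fun ω => mul_nonneg hc.le (abs_nonneg _))).symm

lemma e_meas (l : List Bool) : Measurable (e l) :=
  Measurable.tsum fun k => Finset.measurable_sum _ fun j _ => b_meas k l j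

lemma e_int (l : List Bool) : ∫⁻ ω, e l ω ∂Pr ≤ ENNReal.ofReal (100 / (l.length + 1) ^ 2) := by
  have hs := hasSum_geometric_two.mul_left (50 / ((l.length : ℝ) + 1) ^ 2)
  rw [show (100 : ℝ) / (l.length + 1) ^ 2 = 50 / (l.length + 1) ^ 2 * 2 by ring, ← hs.tsum_eq,
    ENNReal.ofReal_tsum_of_nonneg (fun k => by positivity) hs.summable]
  unfold e
  rw [lintegral_tsum fun k => (Finset.measurable_sum _ fun j _ => b_meas k l j).aemeasurable]
  refine ENNReal.tsum_le_tsum fun k => ?_
  rw [lintegral_finsetSum _ fun j _ => b_meas k l j]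
  refine (sum_le_sum fun j hj => b_int k l j (mem_Ico.mp hj).1).trans ?_
  rw [← ENNReal.ofReal_sum_of_nonneg fun _ _ => by positivity, sum_const, Nat.card_Ico, nsmul_eq_mul]
  refine ENNReal.ofReal_le_ofReal ?_
  have : ((J k (l.length + 1) + 1 - J k l.length : ℕ) : ℝ) ≤ (5 : ℕ) := by
    have := lam_succ l.length
    exact Nat.cast_le.mpr (by unfold J; omega)
  refine (mul_le_mul_of_nonneg_right this (by positivity)).trans_eq ?_
  push_cast
  ring

lemma U_meas : ∀ (j : ℕ) (l : List Bool), Measurable (U l j)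
  | 0, l => e_meas l
  | j + 1, _ => ((U_meas j _).add (U_meas j _)).const_mul _

lemma U_int : ∀ (j : ℕ) (l : List Bool),
    ∫⁻ ω, U l j ω ∂Pr ≤ ENNReal.ofReal (100 / (l.length + j + 1) ^ 2)
  | 0, l => by simpa [U] using e_int l
  | j + 1, l => by
    simp only [U]
    rw [lintegral_const_mul' _ _ (by simp), lintegral_add_left (U_meas j _)]
    refine (mul_le_mul_right (add_le_add (U_int j _) (U_int j _)) _).trans_eq ?_
    simp only [List.length_cons]
    rw [← two_mul, ← mul_assoc, ENNReal.inv_mul_cancel (by simp) (by simp), one_mul]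
    push_cast
    ring_nf

lemma E_fin : ∀ᵐ ω ∂Pr, E [] ω < ∞ := by
  refine ae_lt_top (Measurable.tsum fun j => U_meas j _) ?_
  unfold E
  rw [lintegral_tsum fun j => (U_meas j _).aemeasurable]
  refine ne_top_of_le_ne_top ?_ (ENNReal.tsum_le_tsum fun j => U_int j [])
  refine Summable.tsum_ofReal_ne_top ?_
  have := ((summable_nat_add_iff 1).mpr (Real.summable_one_div_nat_pow.mpr (by norm_num : 1 < 2))).mul_left
    100
  simpa [div_eq_mul_inv] using this

lemma P_fin : ¬ ∀ᵐ ω ∂Pr, P [] ω = ∞ := fun h => by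
  let N : (V → ℕ) → ℝ≥0∞ := fun ω => ∑' k, ∑ j ∈ range (J k 0), ENNReal.ofReal (Z k [] j ω)
  have hm : ∀ k j, Measurable fun ω => ENNReal.ofReal (Z k [] j ω) := fun k j =>
    (moments k (F [] j)).1.ennreal_ofReal
  have h1 : ∫⁻ _, 1 ∂Pr ≤ ∫⁻ ω, N ω ∂Pr := lintegral_mono_ae <| h.mono fun ω h => by
    by_contra hc
    have : ∀ k, ∀ j ∈ range (J k 0), Z k [] j ω = 0 := fun k j hj => by
      have := ((single_le_sum (f := fun j => ENNReal.ofReal (Z k [] j ω)) (fun _ _ => zero_le) hj).trans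
        (ENNReal.le_tsum (f := fun k => ∑ j ∈ range (J k 0), ENNReal.ofReal (Z k [] j ω)) k)).trans_lt
        (not_le.mp hc)
      simpa using this
    have : P [] ω = 0 := ENNReal.tsum_eq_zero.mpr fun k => sum_eq_zero fun j hj => by
      simp [a, this k j hj]
    simp [this] at h
  have h2 : ∫⁻ ω, N ω ∂Pr ≤ ∑' k, ENNReal.ofReal (d k * (1 / 2)) := by
    rw [lintegral_tsum fun k => (Finset.measurable_sum _ fun j _ => hm k j).aemeasurable]
    refine ENNReal.tsum_le_tsum fun k => ?_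
    rw [lintegral_finsetSum _ fun j _ => hm k j]
    have : ∀ j, ∫⁻ ω, ENNReal.ofReal (Z k [] j ω) ∂Pr ≤ ENNReal.ofReal (2 * p k * 2 ^ j) := fun j => by
      obtain ⟨-, h2, h3, -⟩ := moments k (F [] j)
      have := ofReal_integral_eq_lintegral_ofReal (h2.integrable (by norm_num))
        (ae_of_all _ fun ω => Nat.cast_nonneg _)
      rw [h3, F_card] at this
      refine this.symm.le.trans (ENNReal.ofReal_le_ofReal ?_)
      have h4 : (om (([] : List Bool).length + j) : ℝ) ≤ 2 := by exact_mod_cast om_le _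
      have := mul_le_mul_of_nonneg_left h4 (mul_pos (p_pos k) (pow_pos two_pos j)).le
      push_cast
      linarith
    refine (sum_le_sum fun j _ => this j).trans ?_
    have hp := p_pos k
    rw [← ENNReal.ofReal_sum_of_nonneg fun _ _ => by positivity, ← mul_sum,
      geom_sum_eq (by norm_num), ← pt, t, show J k 0 = L k by simp [J, lam]]
    refine ENNReal.ofReal_le_ofReal ?_
    generalize (2 : ℝ) ^ L k = y
    linarith
  rw [← ENNReal.ofReal_tsum_of_nonneg (fun k => mul_nonneg (d_pos k).le (by norm_num))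
    (d_sum.summable.mul_right _), (d_sum.mul_right _).tsum_eq] at h2
  have := h1.trans h2
  norm_num at this

end Pool.Agent.H.MP_baa7da_pr
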