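import Pool.Agent.H.MP_baa7da_pr.C

namespace Pool.Agent.H.MP_baa7da_pr

open Finset Sum MeasureTheory ProbabilityTheory
open scoped ENNReal

def adj : V → V → Prop
  | inl a, inl b => (∃ c, a = c :: b) ∨ ∃ c, b = c :: a
  | inl a, inr b => a = b.1
  | inr a, inl b => b = a.1
  | inr _, inr _ => False

def G : SimpleGraph V where
  Adj := adj
  symm := ⟨by rintro (a | a) (b | b) h <;> simp_all [adj, or_comm]⟩
  loopless := ⟨by rintro (a | a) h <;> simp [adj] at h⟩

def nb : V → Finset V
  | inl [] => {inl [false], inl [true]} ∪ (F [] 0).erase (inl [])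
  | inl (c :: l) => {inl l, inl (false :: c :: l), inl (true :: c :: l)} ∪
      (F (c :: l) 0).erase (inl (c :: l))
  | inr l => {inl l.1}

lemma mem_nb (x y : V) : y ∈ nb x ↔ G.Adj x y := by
  rcases x with (_ | ⟨c, l⟩) | l <;> rcases y with m | ⟨m, hm⟩ <;> simp only [nb, G, adj, F]
  · split_ifs <;> simp [or_comm]
  · split_ifs with h
    · simp [eq_comm]
    · simp; rintro rfl; exact h hm
  · split_ifs <;> simp [eq_comm]
  · split_ifs with h
    · simp [eq_comm]
    · simp; rintro rfl; exact h hm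
  · simp
  · simp

instance : G.LocallyFinite := fun x => Fintype.ofFinset (nb x) (mem_nb x)

lemma nb_eq (x : V) : G.neighborFinset x = nb x := by
  ext y; rw [SimpleGraph.mem_neighborFinset, mem_nb]

lemma deg_le (x : V) : G.degree x ≤ 5 := by
  have : ∀ l, ((F l 0).erase (inl l)).card ≤ 2 := fun l =>
    card_erase_le.trans (by simpa [F_card] using om_le _)
  rw [← G.card_neighborFinset_eq_degree, nb_eq]
  rcases x with (_ | ⟨c, l⟩) | l
  · exact (card_union_le _ _).trans ((add_le_add card_le_two (this _)).trans (by norm_num))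
  · exact (card_union_le _ _).trans (add_le_add card_le_three (this _))
  · simp [nb]

lemma deg_ne (x : V) : (G.degree x : ℝ) ≠ 0 := by
  rw [← G.card_neighborFinset_eq_degree, nb_eq, Nat.cast_ne_zero, card_ne_zero]
  rcases x with (_ | ⟨c, l⟩) | l <;> simp [nb]

lemma conn : G.Connected := by
  have h : ∀ l, G.Reachable (inl []) (inl l) := fun l => by
    induction l with
    | nil => rfl
    | cons c l ih => exact ih.trans (SimpleGraph.Adj.reachable (Or.inr ⟨c, rfl⟩))
  rw [SimpleGraph.connected_iff_exists_forall_reachable]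
  refine ⟨inl [], ?_⟩
  rintro (l | l)
  · exact h l
  · exact (h l.1).trans (SimpleGraph.Adj.reachable (show adj (inl l.1) (inr l) from rfl))

noncomputable def w0 (B : List Bool → ℝ) : List Bool → ℝ
  | [] => B []
  | c :: l => (w0 B l + B (c :: l)) / 2

lemma stab (s : V → ℝ) (hs : ∀ x, 0 ≤ s x) (B : List Bool → ℝ) (h0 : ∀ l, 0 ≤ B l)
    (hB : ∀ l, ∑ x ∈ F l 0, (s x - 1) + (B (false :: l) + B (true :: l)) / 2 ≤ B l) :
    ∃ u : V → ℝ, (∀ x, 0 ≤ u x) ∧
      ∀ x, s x + (∑ y ∈ G.neighborFinset x, u y / (G.degree y : ℝ)) - u x ≤ 1 := by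
  have h1 : ∀ l, 0 ≤ w0 B l := fun l => by
    induction l with
    | nil => exact h0 _
    | cons c l ih => exact div_nonneg (add_nonneg ih (h0 _)) (by norm_num)
  let W : V → ℝ := Sum.elim (fun l => 1 + w0 B l) fun l => w0 B l.1 + s (inr l)
  refine ⟨fun x => G.degree x * W x, fun x => mul_nonneg (by positivity) ?_, fun x => ?_⟩
  · rcases x with l | l
    · exact add_nonneg zero_le_one (h1 _)
    · exact add_nonneg (h1 _) (hs _)
  simp only [mul_div_cancel_left₀ _ (deg_ne _)]
  rw [← G.card_neighborFinset_eq_degree, ← nsmul_eq_mul, ← sum_const, add_sub_assoc, ← sum_sub_distrib,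
    nb_eq]
  rcases x with (_ | ⟨c, l⟩) | l
  · have := hB []
    simp only [nb, F] at this ⊢
    split_ifs at this ⊢ <;> simp [W, w0] at this ⊢ <;> linarith
  · have := hB (c :: l)
    have e : ∀ b, l ≠ b :: c :: l := fun b h => by
      have := congrArg List.length h
      simp at this
      omega
    simp only [nb, F] at this ⊢
    split_ifs at this ⊢ <;> simp [W, w0, e] at this ⊢ <;> linarith
  · simp [nb, W]
    linarith

lemma f_meas : Measurable f := measurable_from_top

noncomputable def ν : Measure ℝ := μ.map f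

instance : IsProbabilityMeasure ν := Measure.isProbabilityMeasure_map f_meas.aemeasurable

lemma f_int : Integrable f μ := ⟨f_meas.aestronglyMeasurable, by
  rw [hasFiniteIntegral_iff_ofReal (ae_of_all _ f_nn), f_one]; simp⟩

lemma ν_int : Integrable (fun t : ℝ => t) ν :=
  (integrable_map_measure (by fun_prop) f_meas.aemeasurable).mpr f_int

lemma ν_one : ∫ t, t ∂ν = 1 := by
  rw [ν, integral_map f_meas.aemeasurable (by fun_prop),
    integral_eq_lintegral_of_nonneg_ae (ae_of_all _ f_nn) f_meas.aestronglyMeasurable, f_one]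
  simp

lemma ν_sq : ¬ Integrable (fun t : ℝ => t ^ 2) ν := fun h => by
  have := ((integrable_map_measure (by fun_prop) f_meas.aemeasurable).mp h).2
  exact ((hasFiniteIntegral_iff_ofReal (ae_of_all _ fun i => sq_nonneg (f i))).mp this).ne f_sq

lemma main : ¬ ∀ᵐ σ ∂(Measure.infinitePi (fun _ : V => ν)), ¬ ∃ u : V → ℝ, (∀ x, 0 ≤ u x) ∧
    ∀ x, σ x + (∑ y ∈ G.neighborFinset x, u y / (G.degree y : ℝ)) - u x ≤ 1 := fun h => by
  unfold ν at h
  rw [← Measure.infinitePi_map_pi (fun _ : V => μ) (f := fun _ => f) fun _ => f_meas] at h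
  refine P_fin ?_
  filter_upwards [ae_of_ae_map (measurable_pi_lambda _ fun x =>
    f_meas.comp (measurable_pi_apply x)).aemeasurable h, E_fin] with ω h1 h2
  by_contra hP
  obtain ⟨B, h3, h4⟩ := det ω hP h2.ne
  exact h1 (stab _ (fun x => f_nn _) B h3 h4)

end Pool.Agent.H.MP_baa7da_pr
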